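import Mathlib

/-!
# Numbers of Polish semigroup topologies on a semigroup

For a semigroup `S` let `N S` be the number of Polish semigroup topologies on `S`. We show that
every natural number is a value of `N`, so that the list `0, 1, ℵ₀, 2 ^ ℵ₀, 2 ^ (2 ^ ℵ₀)` is not
the complete list of values.

The semigroup. Let `P` be a finite nonempty poset and let `Elt P` consist of
* the permutations `g σ` of `ℕ`,
* one copy `x i 0, x i 1, ...` of `ℕ` for each `i : P`,
* matrix units `e i j` for `i ≤ j` in `P`,
* a zero.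
The products are `g σ * g τ = g (σ τ)`, `g σ * x i m = x i (σ m)`, `x i m * e i j = x j m`,
`e i j * e j k = e i k`, and all other products are zero.

Classification. In every Polish semigroup topology on `Elt P` the permutations form a clopen
subspace with the topology of pointwise convergence, all points `x i m` and `e i j` are isolated,
and for every `i` the `i`-th copy of `ℕ` either has zero outside its closure or converges to zero.
The set of those `i` for which it converges is an upper set of `P`, and every upper set occurs.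
Hence the Polish semigroup topologies on `Elt P` are in bijection with the upper sets of `P`, and
for a chain with `k` elements there are exactly `k + 1` of them.

The main points of the proof are:
* a countable Polish space has an isolated point, so the points `x i m` are isolated;
* two comparable Polish topologies on a group coincide (`continuous_inv_of_polish`);
* if zero were a limit of permutations, an involution and its inverse would both be close to zero;
* stabilisers of finite sets act transitively on the complement, so that a copy of `ℕ` with zero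
  in its closure converges to zero.
-/

open Set Filter Topology MeasureTheory

namespace Pool.Agent.Results.MP_67072b_lc.FiniteNumbers

/-- A continuous bijective homomorphism between Polish groups is a homeomorphism; only some of the
translations are needed to be continuous. -/
lemma continuous_inv_of_polish {G H : Type*} [Group G] [Group H] [TopologicalSpace G]
    [TopologicalSpace H] [PolishSpace G] [PolishSpace H] (f : G ≃* H) (hf : Continuous f)
    (hl : ∀ a : G, Continuous (fun x : G => a * x))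
    (hl' : ∀ a : H, Continuous (fun x : H => a * x))
    (hr' : ∀ a : H, Continuous (fun x : H => x * a)) : Continuous f.symm := by
  -- countable basis of the fine topology
  obtain ⟨b, hbc, -, hb⟩ := TopologicalSpace.exists_countable_basis G
  have key : ∀ s ∈ b, ∃ u : Set H, IsOpen u ∧ {x | f.symm x ∈ s ↔ x ∈ u} ∈ residual H := by
    intro s hs
    borelize G
    borelize H
    have h1 : MeasurableSet (f '' s) :=
      (hb.isOpen hs).measurableSet.image_of_continuousOn_injOn hf.continuousOn f.injective.injOn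
    obtain ⟨u, hu, hsu⟩ := MeasurableSet.residualEq_isOpen h1
    refine ⟨u, hu, ?_⟩
    have h2 := hsu.mem_iff
    filter_upwards [h2] with x hx
    rw [← hx]
    constructor
    · intro h
      exact ⟨f.symm x, h, f.apply_symm_apply x⟩
    · rintro ⟨y, hy, rfl⟩
      simpa using hy
  choose! u hu hres using key
  set C : Set H := ⋂ s ∈ b, {x | f.symm x ∈ s ↔ x ∈ u s} with hC
  have hCres : C ∈ residual H := (countable_bInter_mem hbc).2 hres
  have hcont : ∀ y ∈ C, Tendsto f.symm (𝓝[C] y) (𝓝 (f.symm y)) := by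
    intro y hy
    rw [(hb.nhds_hasBasis).tendsto_right_iff]
    rintro s ⟨hs, hys⟩
    have h1 : y ∈ u s := ((mem_iInter₂.1 hy s hs)).1 hys
    have h2 : u s ∈ 𝓝 y := (hu s hs).mem_nhds h1
    have h3 : ∀ᶠ x in 𝓝[C] y, x ∈ u s := mem_nhdsWithin_of_mem_nhds h2
    have h4 : ∀ᶠ x in 𝓝[C] y, x ∈ C := self_mem_nhdsWithin
    filter_upwards [h3, h4] with x hx hxC
    exact (mem_iInter₂.1 hxC s hs).2 hx
  rw [continuous_iff_seqContinuous]
  intro x p hx
  -- choose a translate
  have hA : ∀ a : H, {c : H | c * a ∈ C} ∈ residual H := by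
    intro a
    have ho : IsOpenMap (fun x : H => x * a) :=
      (Homeomorph.mk (Equiv.mulRight a) (hr' a) (hr' a⁻¹)).isOpenMap
    exact tendsto_residual_of_isOpenMap (hr' a) ho hCres
  have hB : (⋂ n, {c : H | c * x n ∈ C}) ∩ {c : H | c * p ∈ C} ∈ residual H :=
    inter_mem (countable_iInter_mem.2 fun n => hA (x n)) (hA p)
  obtain ⟨c, hc1, hc2⟩ := (dense_of_mem_residual hB).nonempty
  have h1 : Tendsto (fun n => c * x n) atTop (𝓝[C] (c * p)) := by
    refine tendsto_nhdsWithin_iff.2 ⟨((hl' c).tendsto p).comp hx, ?_⟩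
    exact Eventually.of_forall fun n => mem_iInter.1 hc1 n
  have h2 : Tendsto (fun n => f.symm (c * x n)) atTop (𝓝 (f.symm (c * p))) :=
    (hcont _ hc2).comp h1
  have h3 := ((hl (f.symm c)⁻¹).tendsto (f.symm (c * p))).comp h2
  simpa [Function.comp_def, map_mul] using h3

/-- The topology of pointwise convergence on the permutations of `ℕ` (of the permutation and of
its inverse). -/
@[instance_reducible] def permTop : TopologicalSpace (Equiv.Perm ℕ) :=
  TopologicalSpace.induced (fun σ => ((σ : ℕ → ℕ), (σ.symm : ℕ → ℕ))) inferInstance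

attribute [local instance] permTop

lemma perm_isInducing : IsInducing (fun σ : Equiv.Perm ℕ => ((σ : ℕ → ℕ), (σ.symm : ℕ → ℕ))) :=
  ⟨rfl⟩

lemma perm_continuous_eval (m : ℕ) : Continuous fun σ : Equiv.Perm ℕ => σ m :=
  (continuous_apply m).comp (continuous_fst.comp perm_isInducing.continuous)

lemma perm_isClosedEmbedding :
    IsClosedEmbedding (fun σ : Equiv.Perm ℕ => ((σ : ℕ → ℕ), (σ.symm : ℕ → ℕ))) := by
  refine ⟨⟨perm_isInducing, ?_⟩, ?_⟩
  · intro σ τ h
    have h1 : (σ : ℕ → ℕ) = τ := (Prod.ext_iff.1 h).1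
    exact DFunLike.coe_injective h1
  · have h0 : range (fun σ : Equiv.Perm ℕ => ((σ : ℕ → ℕ), (σ.symm : ℕ → ℕ))) =
        ⋂ n : ℕ, ({p : (ℕ → ℕ) × (ℕ → ℕ) | p.2 (p.1 n) = n} ∩ {p | p.1 (p.2 n) = n}) := by
      ext p
      constructor
      · rintro ⟨σ, rfl⟩
        simp
      · intro h
        simp only [mem_iInter, mem_inter_iff, mem_ofPred_eq] at h
        exact ⟨⟨p.1, p.2, fun n => (h n).1, fun n => (h n).2⟩, rfl⟩
    rw [h0]
    have hev : Continuous fun q : ℕ × (ℕ → ℕ) => q.2 q.1 := by
      rw [continuous_prod_of_discrete_left]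
      intro a
      exact continuous_apply a
    refine isClosed_iInter fun n => IsClosed.inter ?_ ?_
    · have : Continuous fun p : (ℕ → ℕ) × (ℕ → ℕ) => p.2 (p.1 n) := by
        have h1 : Continuous fun p : (ℕ → ℕ) × (ℕ → ℕ) => (p.1 n, p.2) :=
          ((continuous_apply n).comp continuous_fst).prodMk continuous_snd
        exact hev.comp h1
      exact isClosed_eq this continuous_const
    · have : Continuous fun p : (ℕ → ℕ) × (ℕ → ℕ) => p.1 (p.2 n) := by
        have h1 : Continuous fun p : (ℕ → ℕ) × (ℕ → ℕ) => (p.2 n, p.1) :=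
          ((continuous_apply n).comp continuous_snd).prodMk continuous_fst
        exact hev.comp h1
      exact isClosed_eq this continuous_const

lemma perm_polish : PolishSpace (Equiv.Perm ℕ) := perm_isClosedEmbedding.polishSpace

attribute [local instance] perm_polish

lemma perm_isOpen_agree (σ : Equiv.Perm ℕ) (F : Finset ℕ) :
    IsOpen {ρ : Equiv.Perm ℕ | ∀ m ∈ F, ρ m = σ m} := by
  have : {ρ : Equiv.Perm ℕ | ∀ m ∈ F, ρ m = σ m} = ⋂ m ∈ F, {ρ | ρ m = σ m} := by
    ext; simp
  rw [this]
  exact isOpen_biInter_finset fun m _ =>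
    (isOpen_discrete {σ m}).preimage (perm_continuous_eval m)

lemma perm_isOpen_iff (U : Set (Equiv.Perm ℕ)) :
    IsOpen U ↔ ∀ σ ∈ U, ∃ F : Finset ℕ, ∀ ρ : Equiv.Perm ℕ, (∀ m ∈ F, ρ m = σ m) → ρ ∈ U := by
  constructor
  · intro hU σ hσ
    obtain ⟨W, hW, rfl⟩ := perm_isInducing.isOpen_iff.1 hU
    obtain ⟨u, v, hu, hv, hσu, hσv, huv⟩ := isOpen_prod_iff.1 hW _ _ hσ
    obtain ⟨I, u', hI, hI'⟩ := isOpen_pi_iff.1 hu _ hσu
    obtain ⟨K, v', hK, hK'⟩ := isOpen_pi_iff.1 hv _ hσv
    refine ⟨I ∪ K.image σ.symm, fun ρ hρ => huv ⟨hI' ?_, hK' ?_⟩⟩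
    · intro m hm
      have := hρ m (Finset.mem_union_left _ hm)
      change ρ m ∈ u' m
      rw [this]
      exact (hI m hm).2
    · intro m hm
      have h1 := hρ (σ.symm m) (Finset.mem_union_right _ (Finset.mem_image_of_mem _ hm))
      have h2 : ρ.symm m = σ.symm m := by
        rw [Equiv.symm_apply_eq, h1]
        simp
      change ρ.symm m ∈ v' m
      rw [h2]
      exact (hK m hm).2
  · intro h
    rw [isOpen_iff_mem_nhds]
    intro σ hσ
    obtain ⟨F, hF⟩ := h σ hσ
    exact mem_of_superset ((perm_isOpen_agree σ F).mem_nhds (by simp)) hF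

lemma perm_continuous_mul : Continuous fun p : Equiv.Perm ℕ × Equiv.Perm ℕ => p.1 * p.2 := by
  rw [continuous_def]
  intro U hU
  rw [isOpen_prod_iff]
  intro σ τ h
  obtain ⟨F, hF⟩ := (perm_isOpen_iff U).1 hU _ h
  refine ⟨_, _, perm_isOpen_agree σ (F.image τ), perm_isOpen_agree τ F, by simp, by simp, ?_⟩
  rintro ⟨σ', τ'⟩ ⟨h1, h2⟩
  apply hF
  intro m hm
  have h3 := h2 m hm
  have h4 := h1 (τ m) (Finset.mem_image_of_mem _ hm)
  simp only at h3 h4 ⊢
  rw [Equiv.Perm.mul_apply, Equiv.Perm.mul_apply, h3, h4]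

lemma onePoint_polish (D : Type) [TopologicalSpace D] [DiscreteTopology D] [Countable D] :
    PolishSpace (OnePoint D) := by
  obtain ⟨f, hf⟩ := exists_injective_nat D
  let F : OnePoint D → ℝ := fun z => OnePoint.elim z (0 : ℝ) (fun d => 1 / ((f d : ℝ) + 1))
  have hFd : ∀ d : D, F (d : OnePoint D) = 1 / ((f d : ℝ) + 1) := fun d => rfl
  have hF0 : F OnePoint.infty = 0 := rfl
  have hinj : Function.Injective F := by
    intro a b hab
    induction a using OnePoint.rec with
    | infty =>
      induction b using OnePoint.rec with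
      | infty => rfl
      | coe d =>
        rw [hF0, hFd] at hab
        have : (0 : ℝ) < 1 / ((f d : ℝ) + 1) := by positivity
        linarith
    | coe c =>
      induction b using OnePoint.rec with
      | infty =>
        rw [hF0, hFd] at hab
        have : (0 : ℝ) < 1 / ((f c : ℝ) + 1) := by positivity
        linarith
      | coe d =>
        rw [hFd, hFd] at hab
        have h1 : (f c : ℝ) + 1 = (f d : ℝ) + 1 := by
          have h2 : ((f c : ℝ) + 1) ≠ 0 := by positivity
          have h3 : ((f d : ℝ) + 1) ≠ 0 := by positivity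
          field_simp at hab
          linarith
        have h4 : f c = f d := by
          have : (f c : ℝ) = f d := by linarith
          exact_mod_cast this
        rw [hf h4]
  have hcont : Continuous F := by
    rw [continuous_iff_continuousAt]
    intro z
    induction z using OnePoint.rec with
    | infty =>
      rw [OnePoint.continuousAt_infty']
      rw [coclosedCompact_eq_cocompact, cocompact_eq_cofinite]
      have h1 : Tendsto f cofinite atTop := by
        rw [← Nat.cofinite_eq_atTop]
        exact hf.tendsto_cofinite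
      exact tendsto_one_div_add_atTop_nhds_zero_nat.comp h1
    | coe d =>
      rw [OnePoint.continuousAt_coe]
      exact continuous_of_discreteTopology.continuousAt
  exact (hcont.isClosedEmbedding hinj).polishSpace

/-- The elements of the semigroup attached to a finite poset `P`: permutations of `ℕ`, one copy of
`ℕ` for each `i : P`, matrix units `e i j` for `i ≤ j`, and a zero. -/
inductive Elt (P : Type) [PartialOrder P] : Type
  | g (σ : Equiv.Perm ℕ) : Elt P
  | x (i : P) (m : ℕ) : Elt P
  | e (p : {p : P × P // p.1 ≤ p.2}) : Elt P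
  | zero : Elt P

namespace Elt

variable {P : Type} [PartialOrder P]

open Classical in
/-- Multiplication. -/
noncomputable def mul : Elt P → Elt P → Elt P
  | g σ, g τ => g (σ * τ)
  | g σ, x i m => x i (σ m)
  | x i m, e p => if i = p.1.1 then x p.1.2 m else zero
  | e p, e q => if h : p.1.2 = q.1.1 then e ⟨(p.1.1, q.1.2), p.2.trans (h.le.trans q.2)⟩ else zero
  | _, _ => zero

noncomputable instance : Mul (Elt P) := ⟨mul⟩

@[simp] lemma g_mul_g (σ τ : Equiv.Perm ℕ) : (g σ : Elt P) * g τ = g (σ * τ) := rfl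
@[simp] lemma g_mul_x (σ : Equiv.Perm ℕ) (i : P) (m : ℕ) : g σ * x i m = x i (σ m) := rfl
@[simp] lemma g_mul_e (σ : Equiv.Perm ℕ) (p) : (g σ : Elt P) * e p = zero := rfl
@[simp] lemma g_mul_zero (σ : Equiv.Perm ℕ) : (g σ : Elt P) * zero = zero := rfl
@[simp] lemma x_mul_g (i : P) (m : ℕ) (σ : Equiv.Perm ℕ) : x i m * g σ = zero := rfl
@[simp] lemma x_mul_x (i j : P) (m n : ℕ) : x i m * x j n = zero := rfl
@[simp] lemma x_mul_zero (i : P) (m : ℕ) : x i m * zero = zero := rfl
@[simp] lemma e_mul_g (p) (σ : Equiv.Perm ℕ) : (e p : Elt P) * g σ = zero := rfl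
@[simp] lemma e_mul_x (p) (i : P) (m : ℕ) : e p * x i m = zero := rfl
@[simp] lemma e_mul_zero (p) : (e p : Elt P) * zero = zero := rfl
@[simp] lemma zero_mul' (s : Elt P) : zero * s = zero := by cases s <;> rfl
@[simp] lemma mul_zero' (s : Elt P) : s * zero = zero := by cases s <;> rfl

open Classical in
lemma x_mul_e (i : P) (m : ℕ) (p) : x i m * e p = if i = p.1.1 then x p.1.2 m else zero := rfl
open Classical in
lemma e_mul_e (p q : {p : P × P // p.1 ≤ p.2}) : e p * e q =
    if h : p.1.2 = q.1.1 then e ⟨(p.1.1, q.1.2), p.2.trans (h.le.trans q.2)⟩ else zero := rfl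

noncomputable instance : Semigroup (Elt P) where
  mul_assoc := by
    intro a b c
    cases a <;> cases b <;> cases c <;>
      simp only [g_mul_g, g_mul_x, g_mul_e, x_mul_g, x_mul_x, e_mul_g,
        e_mul_x, zero_mul', mul_zero', x_mul_e, e_mul_e, mul_assoc,
        Equiv.Perm.mul_apply] <;>
      split_ifs <;> (try simp_all [x_mul_e, e_mul_e])


/-- The topology attached to a set `J` of copies: the permutations form a clopen subspace with the
pointwise topology, the points `x i m` and `e p` are isolated, and the points `x i m` with `i ∈ J`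
converge to zero. -/
@[instance_reducible] def top (J : Set P) : TopologicalSpace (Elt P) where
  IsOpen U := IsOpen (g ⁻¹' U : Set (Equiv.Perm ℕ)) ∧
    (zero ∈ U → ∀ i ∈ J, {m | x i m ∉ U}.Finite)
  isOpen_univ := ⟨by simp, fun _ i _ => by simp⟩
  isOpen_inter := by
    rintro U V ⟨hU, hU'⟩ ⟨hV, hV'⟩
    refine ⟨hU.inter hV, ?_⟩
    rintro ⟨h0U, h0V⟩ i hi
    refine ((hU' h0U i hi).union (hV' h0V i hi)).subset ?_
    intro m hm
    by_cases h : x i m ∈ U
    · exact Or.inr fun h' => hm ⟨h, h'⟩
    · exact Or.inl h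
  isOpen_sUnion := by
    intro S hS
    refine ⟨?_, ?_⟩
    · rw [preimage_sUnion]
      exact isOpen_biUnion fun U hU => (hS U hU).1
    · rintro ⟨U, hU, h0⟩ i hi
      refine ((hS U hU).2 h0 i hi).subset ?_
      intro m hm h
      exact hm ⟨U, hU, h⟩

lemma top_isOpen_iff (J : Set P) (U : Set (Elt P)) : IsOpen[top J] U ↔
    IsOpen (g ⁻¹' U : Set (Equiv.Perm ℕ)) ∧ (zero ∈ U → ∀ i ∈ J, {m | x i m ∉ U}.Finite) :=
  Iff.rfl

lemma top_isOpen_of_g (J : Set P) (O : Set (Equiv.Perm ℕ)) (hO : IsOpen O) :
    IsOpen[top J] (g '' O : Set (Elt P)) := by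
  rw [top_isOpen_iff]
  constructor
  · rwa [preimage_image_eq _ (fun a b h => by injection h)]
  · rintro ⟨σ, -, h⟩
    exact absurd h (by simp)

lemma top_isOpen_of_notMem (J : Set P) (U : Set (Elt P)) (hg : ∀ σ, g σ ∉ U) (h0 : zero ∉ U) :
    IsOpen[top J] U := by
  rw [top_isOpen_iff]
  constructor
  · have : (g ⁻¹' U : Set (Equiv.Perm ℕ)) = ∅ := by
      ext σ; simp [hg]
    rw [this]
    exact isOpen_empty
  · intro h
    exact absurd h h0

lemma top_isOpen_of_finite (J : Set P) (U : Set (Elt P)) (hg : ∀ σ, g σ ∉ U)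
    (h : ∀ i ∈ J, {m | x i m ∉ U}.Finite) : IsOpen[top J] U := by
  rw [top_isOpen_iff]
  constructor
  · have : (g ⁻¹' U : Set (Equiv.Perm ℕ)) = ∅ := by
      ext σ; simp [hg]
    rw [this]
    exact isOpen_empty
  · intro _
    exact h

/-- Multiplication is jointly continuous for `top J` when `J` is an upper set. -/
lemma top_continuousMul [Finite P] (J : Set P) (hJ : IsUpperSet J) :
    @ContinuousMul (Elt P) (top J) _ := by
  let := top J
  refine ⟨?_⟩
  rw [continuous_def]
  intro U hU
  rw [isOpen_prod_iff]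
  have hrg : IsOpen (range (g : Equiv.Perm ℕ → Elt P)) := by
    rw [← image_univ]; exact top_isOpen_of_g J _ isOpen_univ
  have hsx : ∀ i m, IsOpen ({x i m} : Set (Elt P)) := fun i m =>
    top_isOpen_of_notMem J _ (by simp) (by simp)
  have hse : ∀ p, IsOpen ({e p} : Set (Elt P)) := fun p =>
    top_isOpen_of_notMem J _ (by simp) (by simp)
  have hX0 : IsOpen {s : Elt P | s = zero ∨ ∃ i m, s = x i m} :=
    top_isOpen_of_finite J _ (by simp) (by simp)
  rintro a b hab
  replace hab : a * b ∈ U := hab
  cases a with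
  | g σ =>
    cases b with
    | g τ =>
      have h1 : IsOpen (g ⁻¹' U : Set (Equiv.Perm ℕ)) := hU.1
      obtain ⟨A, B, hA, hB, hσ, hτ, hAB⟩ :=
        isOpen_prod_iff.1 (perm_continuous_mul.isOpen_preimage _ h1) σ τ hab
      refine ⟨_, _, top_isOpen_of_g J A hA, top_isOpen_of_g J B hB, ⟨σ, hσ, rfl⟩, ⟨τ, hτ, rfl⟩, ?_⟩
      rintro ⟨_, _⟩ ⟨⟨σ', hσ', rfl⟩, ⟨τ', hτ', rfl⟩⟩
      exact hAB (mk_mem_prod hσ' hτ')
    | x i m =>
      refine ⟨_, _, top_isOpen_of_g J _ (perm_isOpen_agree σ {m}), hsx i m,
        ⟨σ, by simp, rfl⟩, rfl, ?_⟩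
      rintro ⟨_, _⟩ ⟨⟨σ', hσ', rfl⟩, rfl⟩
      have h1 : σ' m = σ m := hσ' m (by simp)
      simpa [h1] using hab
    | e p =>
      refine ⟨_, _, hrg, hse p, ⟨σ, rfl⟩, rfl, ?_⟩
      rintro ⟨_, _⟩ ⟨⟨σ', rfl⟩, rfl⟩
      simpa using hab
    | zero =>
      have h0 : zero ∈ U := by simpa using hab
      have hfin : {m | ∃ i ∈ J, x i (σ m) ∉ U}.Finite := by
        have h2 : {m | ∃ i ∈ J, x i (σ m) ∉ U} = ⋃ i ∈ J, σ ⁻¹' {m | x i m ∉ U} := by
          ext m; simp
        rw [h2]
        exact (toFinite J).biUnion fun i hi =>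
          (hU.2 h0 i hi).preimage σ.injective.injOn
      refine ⟨_, {s | s = zero ∨ ∃ i ∈ J, ∃ m ∉ hfin.toFinset, s = x i m},
        top_isOpen_of_g J _ (perm_isOpen_agree σ hfin.toFinset), ?_, ⟨σ, by simp, rfl⟩,
        Or.inl rfl, ?_⟩
      · refine top_isOpen_of_finite J _ (by simp) ?_
        intro i hi
        refine hfin.subset ?_
        intro m hm
        by_contra hcon
        apply hm
        refine Or.inr ⟨i, hi, m, ?_, rfl⟩
        rwa [Set.Finite.mem_toFinset]
      · rintro ⟨_, _⟩ ⟨⟨σ', hσ', rfl⟩, (rfl | ⟨i, hi, m, hm, rfl⟩)⟩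
        · simpa using h0
        · change x i (σ' m) ∈ U
          by_contra hcon
          have h3 : σ.symm (σ' m) ∈ hfin.toFinset := by
            rw [Set.Finite.mem_toFinset]
            exact ⟨i, hi, by simpa using hcon⟩
          have h4 := hσ' _ h3
          rw [Equiv.apply_symm_apply] at h4
          have h5 := σ'.injective h4
          rw [h5] at h3
          exact hm h3
  | x i m =>
    have hx : IsOpen ({x i m} : Set (Elt P)) := hsx i m
    cases b with
    | g τ =>
      refine ⟨_, _, hx, hrg, rfl, ⟨τ, rfl⟩, ?_⟩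
      rintro ⟨_, _⟩ ⟨rfl, ⟨σ', rfl⟩⟩
      simpa using hab
    | x j n =>
      refine ⟨_, _, hx, hsx j n, rfl, rfl, ?_⟩
      rintro ⟨_, _⟩ ⟨rfl, rfl⟩
      simpa using hab
    | e p =>
      refine ⟨_, _, hx, hse p, rfl, rfl, ?_⟩
      rintro ⟨_, _⟩ ⟨rfl, rfl⟩
      simpa using hab
    | zero =>
      refine ⟨_, _, hx, hX0, rfl, Or.inl rfl, ?_⟩
      rintro ⟨_, _⟩ ⟨rfl, (rfl | ⟨i', m', rfl⟩)⟩ <;> simpa using hab
  | e p =>
    cases b with
    | g τ =>
      refine ⟨_, _, hse p, hrg, rfl, ⟨τ, rfl⟩, ?_⟩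
      rintro ⟨_, _⟩ ⟨rfl, ⟨σ', rfl⟩⟩
      simpa using hab
    | x j n =>
      refine ⟨_, _, hse p, hsx j n, rfl, rfl, ?_⟩
      rintro ⟨_, _⟩ ⟨rfl, rfl⟩
      simpa using hab
    | e q =>
      refine ⟨_, _, hse p, hse q, rfl, rfl, ?_⟩
      rintro ⟨_, _⟩ ⟨rfl, rfl⟩
      simpa using hab
    | zero =>
      refine ⟨_, _, hse p, hX0, rfl, Or.inl rfl, ?_⟩
      rintro ⟨_, _⟩ ⟨rfl, (rfl | ⟨i', m', rfl⟩)⟩ <;> simpa using hab
  | zero =>
    have h0 : zero ∈ U := by simpa using hab
    cases b with
    | g τ =>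
      refine ⟨_, _, hX0, hrg, Or.inl rfl, ⟨τ, rfl⟩, ?_⟩
      rintro ⟨_, _⟩ ⟨(rfl | ⟨i', m', rfl⟩), ⟨σ', rfl⟩⟩ <;> simpa using h0
    | x j n =>
      refine ⟨_, _, hX0, hsx j n, Or.inl rfl, rfl, ?_⟩
      rintro ⟨_, _⟩ ⟨(rfl | ⟨i', m', rfl⟩), rfl⟩ <;> simpa using h0
    | e q =>
      refine ⟨{s | (s = zero ∨ ∃ i m, s = x i m) ∧ s * e q ∈ U}, {e q}, ?_, hse q,
        ⟨Or.inl rfl, by simpa using h0⟩, rfl, ?_⟩
      · refine top_isOpen_of_finite J _ (by simp) ?_
        intro i hi
        by_cases hiq : i = q.1.1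
        · have h2 : q.1.2 ∈ J := hJ (hiq ▸ q.2) hi
          refine (hU.2 h0 _ h2).subset ?_
          intro m hm hm'
          exact hm ⟨Or.inr ⟨i, m, rfl⟩, by simpa [x_mul_e, hiq] using hm'⟩
        · have : {m | x i m ∉ {s : Elt P | (s = zero ∨ ∃ i m, s = x i m) ∧ s * e q ∈ U}} = ∅ := by
            ext m
            simp [x_mul_e, hiq, h0]
          rw [this]
          exact finite_empty
      · rintro ⟨_, _⟩ ⟨⟨-, h⟩, rfl⟩
        exact h
    | zero =>
      refine ⟨_, _, hX0, hX0, Or.inl rfl, Or.inl rfl, ?_⟩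
      rintro ⟨_, _⟩ ⟨(rfl | ⟨i', m', rfl⟩), (rfl | ⟨j', n', rfl⟩)⟩ <;> simpa using h0

/-- `top J` is Polish. -/
lemma top_polish [Finite P] (J : Set P) : @PolishSpace (Elt P) (top J) := by
  classical
  let : TopologicalSpace P := ⊥
  have : DiscreteTopology P := ⟨rfl⟩
  have h1 : PolishSpace (OnePoint (J × ℕ)) := onePoint_polish _
  let f : Elt P ≃ (Equiv.Perm ℕ ⊕ (OnePoint (J × ℕ) ⊕
      ((↥(Jᶜ) × ℕ) ⊕ {p : P × P // p.1 ≤ p.2}))) :=
    { toFun := fun s => match s with
        | g σ => Sum.inl σ
        | x i m => if h : i ∈ J then Sum.inr (Sum.inl ((⟨i, h⟩, m) : J × ℕ))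
            else Sum.inr (Sum.inr (Sum.inl (⟨i, h⟩, m)))
        | e p => Sum.inr (Sum.inr (Sum.inr p))
        | zero => Sum.inr (Sum.inl OnePoint.infty)
      invFun := fun z => match z with
        | Sum.inl σ => g σ
        | Sum.inr (Sum.inl w) => w.elim zero (fun q => x q.1.1 q.2)
        | Sum.inr (Sum.inr (Sum.inl q)) => x q.1.1 q.2
        | Sum.inr (Sum.inr (Sum.inr p)) => e p
      left_inv := by
        intro s
        cases s with
        | g σ => rfl
        | x i m =>
          by_cases h : i ∈ J <;> simp [h]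
        | e p => rfl
        | zero => rfl
      right_inv := by
        intro z
        rcases z with σ | w | ⟨⟨i, hi⟩, m⟩ | p
        · rfl
        · induction w using OnePoint.rec with
          | infty => rfl
          | coe q =>
            obtain ⟨⟨i, hi⟩, m⟩ := q
            simp [hi]
        · have hi' : i ∉ J := hi
          simp [hi']
        · rfl }
  have hZ : PolishSpace (Equiv.Perm ℕ ⊕ (OnePoint (J × ℕ) ⊕
      ((↥(Jᶜ) × ℕ) ⊕ {p : P × P // p.1 ≤ p.2}))) := by
    infer_instance
  have key : top J = TopologicalSpace.induced f inferInstance := by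
    apply TopologicalSpace.ext
    ext U
    rw [isOpen_induced_iff]
    have h2 : (∃ t, IsOpen t ∧ f ⁻¹' t = U) ↔ IsOpen (f.symm ⁻¹' U) := by
      constructor
      · rintro ⟨t, ht, rfl⟩
        rwa [← preimage_comp, Equiv.self_comp_symm, preimage_id]
      · intro h
        exact ⟨_, h, by rw [← preimage_comp, Equiv.symm_comp_self, preimage_id]⟩
    rw [h2, isOpen_sum_iff, isOpen_sum_iff, top_isOpen_iff, OnePoint.isOpen_def]
    have h3 : (Sum.inl ⁻¹' (f.symm ⁻¹' U) : Set (Equiv.Perm ℕ)) = g ⁻¹' U := rfl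
    have h4 : IsOpen (Sum.inr ⁻¹' (Sum.inr ⁻¹' (f.symm ⁻¹' U)) :
        Set ((↥(Jᶜ) × ℕ) ⊕ {p : P × P // p.1 ≤ p.2})) := isOpen_discrete _
    have h5 : (OnePoint.infty ∈ (Sum.inl ⁻¹' (Sum.inr ⁻¹' (f.symm ⁻¹' U)) :
        Set (OnePoint (J × ℕ)))) ↔ zero ∈ U := Iff.rfl
    have h6 : ((fun q : J × ℕ => (q : OnePoint (J × ℕ))) ⁻¹'
        (Sum.inl ⁻¹' (Sum.inr ⁻¹' (f.symm ⁻¹' U)) : Set (OnePoint (J × ℕ)))) =
        {q : J × ℕ | x q.1.1 q.2 ∈ U} := rfl
    rw [h3, h5, h6]
    simp only [h4, and_true, isOpen_discrete, isCompact_iff_finite]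
    refine and_congr_right fun _ => imp_congr_right fun _ => ?_
    constructor
    · intro h
      have : {q : J × ℕ | x q.1.1 q.2 ∈ U}ᶜ =
          ⋃ i : J, (fun m => (i, m)) '' {m | x i.1 m ∉ U} := by
        ext ⟨i, m⟩
        simp [eq_comm]
      rw [this]
      exact finite_iUnion fun i => (h i.1 i.2).image _
    · intro h i hi
      have h7 := h.preimage (f := fun m : ℕ => ((⟨i, hi⟩, m) : J × ℕ))
        (fun a _ b _ hab => by simpa using hab)
      exact h7.subset fun m hm => hm
  rw [key]
  exact f.polishSpace_induced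

/-! ### Classification -/

/-- A copy of the group of permutations of `ℕ`. -/
def PermCopy : Type := Equiv.Perm ℕ

noncomputable instance : Group PermCopy := inferInstanceAs (Group (Equiv.Perm ℕ))

/-- The identity, as an isomorphism from the copy. -/
noncomputable def PermCopy.equiv : PermCopy ≃* Equiv.Perm ℕ := MulEquiv.refl (Equiv.Perm ℕ)

section classification

variable [Finite P] [TopologicalSpace (Elt P)] [PolishSpace (Elt P)] [ContinuousMul (Elt P)]

omit [Finite P] in
lemma isOpen_range_g : IsOpen (range (g : Equiv.Perm ℕ → Elt P)) := by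
  have h1 : IsOpen ((fun s : Elt P => s * g 1) ⁻¹' {zero}ᶜ) :=
    isOpen_compl_singleton.preimage (continuous_mul_const _)
  convert! h1 using 1
  ext s
  cases s <;> simp

lemma isOpen_range_x (i : P) : IsOpen (range (x i : ℕ → Elt P)) := by
  have h1 : IsOpen ((fun s : Elt P => s * e ⟨(i, i), le_refl i⟩) ⁻¹' {zero}ᶜ) :=
    isOpen_compl_singleton.preimage (continuous_mul_const _)
  have h2 : (range (e : {p : P × P // p.1 ≤ p.2} → Elt P)).Finite := finite_range _
  have h3 := h1.sdiff h2.isClosed
  convert! h3 using 1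
  ext s
  cases s with
  | g σ => simp
  | x j m =>
    by_cases hj : j = i
    · subst hj
      simp [x_mul_e]
    · have hj' : ¬ i = j := fun h => hj h.symm
      simp [x_mul_e, hj, hj']
  | e p => simp
  | zero => simp

lemma isOpen_singleton_x (i : P) (m : ℕ) : IsOpen ({x i m} : Set (Elt P)) := by
  obtain ⟨m₀, hm₀⟩ : ∃ m₀, IsOpen ({x i m₀} : Set (Elt P)) := by
    by_contra hcon
    push Not at hcon
    have h1 : ∀ m₀, interior ({x i m₀} : Set (Elt P)) = ∅ := by
      intro m₀
      by_contra h
      rcases subset_singleton_iff_eq.1 (interior_subset (s := ({x i m₀} : Set (Elt P)))) with h' | h'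
      · exact h h'
      · exact hcon m₀ (h' ▸ isOpen_interior)
    have h2 : IsMeagre (range (x i : ℕ → Elt P)) := by
      rw [← iUnion_singleton_eq_range]
      refine isMeagre_iUnion fun m₀ => ?_
      apply IsNowhereDense.isMeagre
      rw [isClosed_singleton.isNowhereDense_iff]
      exact h1 m₀
    exact not_isMeagre_of_isOpen (isOpen_range_x i) (range_nonempty _) h2
  have h3 : IsOpen ((fun s : Elt P => g (Equiv.swap m m₀) * s) ⁻¹' {x i m₀}) :=
    hm₀.preimage (continuous_const_mul _)
  convert! h3 using 1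
  ext s
  cases s with
  | g σ => simp
  | x j n =>
    simp only [mem_singleton_iff, mem_preimage, g_mul_x, x.injEq]
    refine and_congr_right fun _ => ?_
    constructor
    · rintro rfl
      simp
    · intro h
      have := congrArg (Equiv.swap m m₀) h
      simpa using this
  | e p => simp
  | zero => simp

lemma isOpen_singleton_e (p : {p : P × P // p.1 ≤ p.2}) : IsOpen ({e p} : Set (Elt P)) := by
  have h3 : IsOpen ((fun s : Elt P => x p.1.1 0 * s) ⁻¹' {x p.1.2 0}) :=
    (isOpen_singleton_x _ _).preimage (continuous_const_mul _)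
  convert! h3 using 1
  ext s
  cases s with
  | g σ => simp
  | x j n => simp
  | e q =>
    obtain ⟨⟨p1, p2⟩, hp⟩ := p
    obtain ⟨⟨q1, q2⟩, hq⟩ := q
    by_cases h : p1 = q1
    · subst h
      simp [x_mul_e]
    · have h' : ¬ q1 = p1 := fun h' => h h'.symm
      simp [x_mul_e, h, h']
  | zero => simp

/-- The induced topology on the permutations is the pointwise one. -/
lemma isOpenEmbedding_g [Nonempty P] : IsOpenEmbedding (g : Equiv.Perm ℕ → Elt P) := by
  let gT : PermCopy → Elt P := fun σ => g (PermCopy.equiv σ)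
  have hinj : Function.Injective gT := fun a b h => by
    have : PermCopy.equiv a = PermCopy.equiv b := by injection h
    exact PermCopy.equiv.injective this
  let t : TopologicalSpace PermCopy := TopologicalSpace.induced gT inferInstance
  have hemb : IsOpenEmbedding gT := by
    refine ⟨⟨⟨rfl⟩, hinj⟩, ?_⟩
    have : range gT = range (g : Equiv.Perm ℕ → Elt P) :=
      PermCopy.equiv.surjective.range_comp g
    rw [this]
    exact isOpen_range_g
  have htp : PolishSpace PermCopy := by
    have h0 : PolishSpace (range gT) := hemb.isOpen_range.polishSpace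
    exact hemb.toIsEmbedding.toHomeomorph.isClosedEmbedding.polishSpace
  obtain ⟨i⟩ := ‹Nonempty P›
  have hev : ∀ m n : ℕ, IsOpen {σ : PermCopy | PermCopy.equiv σ m = n} := by
    intro m n
    have h1 : IsOpen ((fun s : Elt P => s * x i m) ⁻¹' {x i n}) :=
      (isOpen_singleton_x _ _).preimage (continuous_mul_const _)
    have h2 := hemb.continuous.isOpen_preimage _ h1
    convert! h2 using 1
    ext σ
    simp [gT]
  have hcont : Continuous PermCopy.equiv := by
    rw [perm_isInducing.continuous_iff]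
    refine Continuous.prodMk ?_ ?_
    · refine continuous_pi fun m => ?_
      refine continuous_discrete_rng.2 fun n => ?_
      exact hev m n
    · refine continuous_pi fun m => ?_
      refine continuous_discrete_rng.2 fun n => ?_
      have h2 := hev n m
      convert! h2 using 1
      ext σ
      change (PermCopy.equiv σ).symm m = n ↔ (PermCopy.equiv σ) n = m
      rw [Equiv.symm_apply_eq, eq_comm]
  have hl : ∀ a : PermCopy, Continuous (fun y : PermCopy => a * y) := by
    intro a
    rw [hemb.toIsInducing.continuous_iff]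
    exact (continuous_const_mul (gT a)).comp hemb.continuous
  have hfin : Continuous PermCopy.equiv.symm := by
    refine continuous_inv_of_polish PermCopy.equiv hcont hl ?_ ?_
    · intro a
      exact perm_continuous_mul.comp (continuous_const.prodMk continuous_id)
    · intro a
      exact perm_continuous_mul.comp (continuous_id.prodMk continuous_const)
  let H : Equiv.Perm ℕ ≃ₜ PermCopy := ⟨PermCopy.equiv.symm.toEquiv, hfin, hcont⟩
  exact hemb.comp H.isOpenEmbedding

/-- Zero is not in the closure of the permutations. -/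
lemma exists_isOpen_zero [Nonempty P] :
    ∃ U : Set (Elt P), IsOpen U ∧ zero ∈ U ∧ ∀ σ, g σ ∉ U := by
  by_contra hcon
  push Not at hcon
  have hmul : Continuous fun p : Elt P × Elt P => p.1 * p.2 := continuous_mul
  have h1 : IsOpen ((fun p : Elt P × Elt P => p.1 * p.2) ⁻¹' {g 1}ᶜ) :=
    isOpen_compl_singleton.preimage hmul
  obtain ⟨V1, V2, hV1, hV2, hz1, hz2, hVV⟩ := isOpen_prod_iff.1 h1 zero zero (by simp)
  have h2 : IsOpen ((fun p : Elt P × Elt P => p.1 * p.2) ⁻¹' (V1 ∩ V2)) :=
    (hV1.inter hV2).preimage hmul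
  obtain ⟨W, A, hW, hA, hzW, hA1, hWA⟩ := isOpen_prod_iff.1 h2 zero (g 1) (by
    simp [hz1, hz2])
  have hAo : IsOpen ((g : Equiv.Perm ℕ → Elt P) ⁻¹' A) := hA.preimage isOpenEmbedding_g.continuous
  obtain ⟨F, hF⟩ := (perm_isOpen_iff _).1 hAo 1 hA1
  obtain ⟨i⟩ := ‹Nonempty P›
  have hW' : IsOpen (W ∩ ⋂ m ∈ F, ⋂ n ∈ F, (fun s : Elt P => s * x i m) ⁻¹' {x i n}ᶜ) :=
    hW.inter (isOpen_biInter_finset fun m _ => isOpen_biInter_finset fun n _ =>
      isOpen_compl_singleton.preimage (continuous_mul_const _))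
  obtain ⟨σ, hσW, hσ⟩ := hcon _ hW' ⟨hzW, by simp⟩
  have hdis : ∀ m ∈ F, σ m ∉ F := by
    intro m hm hm'
    have := mem_iInter₂.1 (mem_iInter₂.1 hσ m hm) (σ m) hm'
    simp at this
  -- the involution exchanging `F` and `σ F`
  let f : ℕ → ℕ := fun m => if m ∈ F then σ m else if σ.symm m ∈ F then σ.symm m else m
  have hf : Function.Involutive f := by
    intro m
    by_cases hm : m ∈ F
    · have h3 : f m = σ m := by simp [f, hm]
      rw [h3]
      simp [f, hdis m hm, hm]
    · by_cases hm' : σ.symm m ∈ F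
      · have h3 : f m = σ.symm m := by simp [f, hm, hm']
        rw [h3]
        simp [f, hm']
      · have h3 : f m = m := by simp [f, hm, hm']
        rw [h3, h3]
  let ρ : Equiv.Perm ℕ := hf.toPerm f
  have hρρ : ρ * ρ = 1 := by
    ext m
    exact hf m
  have hβ : g (σ⁻¹ * ρ) ∈ A := by
    apply hF
    intro m hm
    have h3 : ρ m = σ m := by
      change f m = σ m
      simp [f, hm]
    rw [Equiv.Perm.mul_apply, h3]
    simp
  have hρ : (g ρ : Elt P) ∈ V1 ∩ V2 := by
    have h4 := hWA (mk_mem_prod hσW hβ)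
    have h5 : (g σ : Elt P) * g (σ⁻¹ * ρ) = g ρ := by
      rw [g_mul_g, mul_inv_cancel_left]
    rw [← h5]
    exact h4
  have h6 := hVV (mk_mem_prod hρ.1 hρ.2)
  apply h6
  simp [hρρ]

/-- If zero is in the closure of the `i`-th copy then this copy converges to zero. -/
lemma finite_compl [Nonempty P] (i : P) (hi : zero ∈ closure (range (x i : ℕ → Elt P)))
    (U : Set (Elt P)) (hU : IsOpen U) (h0 : zero ∈ U) : {m | x i m ∉ U}.Finite := by
  have hmul : Continuous fun p : Elt P × Elt P => p.1 * p.2 := continuous_mul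
  have h1 : IsOpen ((fun p : Elt P × Elt P => p.1 * p.2) ⁻¹' U) := hU.preimage hmul
  obtain ⟨A, W, hA, hW, hA1, hzW, hAW⟩ := isOpen_prod_iff.1 h1 (g 1) zero (by simpa using h0)
  have hAo : IsOpen ((g : Equiv.Perm ℕ → Elt P) ⁻¹' A) := hA.preimage isOpenEmbedding_g.continuous
  obtain ⟨F, hF⟩ := (perm_isOpen_iff _).1 hAo 1 hA1
  have hW' : IsOpen (W \ (x i '' (F : Set ℕ))) :=
    hW.sdiff (F.finite_toSet.image _).isClosed
  obtain ⟨s, ⟨hsW, hsF⟩, ⟨m', rfl⟩⟩ := mem_closure_iff.1 hi _ hW' ⟨hzW, by simp⟩
  refine F.finite_toSet.subset fun n hn => ?_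
  by_contra hnF
  apply hn
  have hm' : m' ∉ F := fun h => hsF ⟨m', h, rfl⟩
  have h2 : g (Equiv.swap m' n) ∈ A := by
    apply hF
    intro m hm
    rw [Equiv.swap_apply_of_ne_of_ne]
    · rfl
    · rintro rfl
      exact hm' hm
    · rintro rfl
      exact hnF hm
  have h3 := hAW (mk_mem_prod h2 hsW)
  simpa using h3

/-- The set of copies converging to zero. -/
def conv (P : Type) [PartialOrder P] [TopologicalSpace (Elt P)] : Set P :=
  {i | zero ∈ closure (range (x i : ℕ → Elt P))}

omit [Finite P] [PolishSpace (Elt P)] in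
lemma isUpperSet_conv : IsUpperSet (conv P) := by
  intro i j hij hi
  have h1 : Continuous fun s : Elt P => s * e ⟨(i, j), hij⟩ := continuous_mul_const _
  have h2 := image_closure_subset_closure_image h1 (mem_image_of_mem _ hi)
  have h3 : (fun s : Elt P => s * e ⟨(i, j), hij⟩) '' range (x i : ℕ → Elt P) = range (x j) := by
    rw [← range_comp]
    congr 1
    ext m
    simp [x_mul_e]
  rw [h3] at h2
  change zero ∈ closure (range (x j))
  simpa using h2

lemma eq_top [Nonempty P] : (inferInstance : TopologicalSpace (Elt P)) = top (conv P) := by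
  apply TopologicalSpace.ext
  ext U
  rw [top_isOpen_iff]
  constructor
  · intro hU
    exact ⟨hU.preimage isOpenEmbedding_g.continuous, fun h0 i hi => finite_compl i hi U hU h0⟩
  · rintro ⟨hg, hx⟩
    change IsOpen U
    rw [isOpen_iff_mem_nhds]
    intro s hs
    cases s with
    | g σ =>
      have h1 : IsOpen ((g : Equiv.Perm ℕ → Elt P) '' (g ⁻¹' U)) :=
        isOpenEmbedding_g.isOpenMap _ hg
      exact mem_of_superset (h1.mem_nhds ⟨σ, hs, rfl⟩) (image_preimage_subset _ _)
    | x i m =>
      exact mem_of_superset ((isOpen_singleton_x i m).mem_nhds rfl) (by simpa using hs)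
    | e p =>
      exact mem_of_superset ((isOpen_singleton_e p).mem_nhds rfl) (by simpa using hs)
    | zero =>
      obtain ⟨U0, hU0, hz0, hgU0⟩ := exists_isOpen_zero (P := P)
      have h1 : ∀ i : P, ∃ V : Set (Elt P), IsOpen V ∧ zero ∈ V ∧ ∀ m, x i m ∈ V → x i m ∈ U := by
        intro i
        by_cases hi : i ∈ conv P
        · refine ⟨(x i '' {m | x i m ∉ U})ᶜ, ((hx hs i hi).image _).isClosed.isOpen_compl,
            by simp, ?_⟩
          intro m hm
          by_contra hcon
          exact hm ⟨m, hcon, rfl⟩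
        · refine ⟨(closure (range (x i)))ᶜ, isClosed_closure.isOpen_compl, hi, ?_⟩
          intro m hm
          have h4 : x i m ∈ closure (range (x i : ℕ → Elt P)) := subset_closure (mem_range_self m)
          exact absurd h4 hm
      choose V hV hzV hVU using h1
      have h2 : IsOpen (U0 ∩ (⋂ i, V i) ∩ (range (e : {p : P × P // p.1 ≤ p.2} → Elt P))ᶜ) :=
        (hU0.inter (isOpen_iInter_of_finite hV)).inter (finite_range _).isClosed.isOpen_compl
      have h3 : zero ∈ U0 ∩ (⋂ i, V i) ∩ (range (e : {p : P × P // p.1 ≤ p.2} → Elt P))ᶜ :=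
        ⟨⟨hz0, mem_iInter.2 hzV⟩, by simp⟩
      refine mem_of_superset (h2.mem_nhds h3) ?_
      rintro s ⟨⟨hs0, hsV⟩, hse⟩
      cases s with
      | g σ => exact absurd hs0 (hgU0 σ)
      | x i m => exact hVU i m (mem_iInter.1 hsV i)
      | e p => exact absurd ⟨p, rfl⟩ hse
      | zero => exact hs

end classification

lemma top_injective (J J' : Set P) (h : top J = top J') : J ⊆ J' := by
  intro i hi
  by_contra hi'
  have h1 : IsOpen[top J'] (range (x i : ℕ → Elt P))ᶜ := by
    rw [top_isOpen_iff]
    constructor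
    · have : (g ⁻¹' (range (x i : ℕ → Elt P))ᶜ : Set (Equiv.Perm ℕ)) = univ := by
        ext σ; simp
      rw [this]
      exact isOpen_univ
    · intro _ j hj
      have hij : ¬ i = j := fun h => hi' (h ▸ hj)
      have : {m | x j m ∉ (range (x i : ℕ → Elt P))ᶜ} = ∅ := by
        ext m; simp [hij]
      rw [this]
      exact finite_empty
  rw [← h] at h1
  have h2 := h1.2 (by simp) i hi
  have h3 : {m | x i m ∉ (range (x i : ℕ → Elt P))ᶜ} = univ := by
    ext m; simp
  rw [h3] at h2
  exact infinite_univ h2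

end Elt

/-- The set of Polish semigroup topologies on a semigroup: the topologies which are separable and
completely metrizable and for which the multiplication is (jointly) continuous. -/
def PolishSemigroupTopologies (S : Type) [Semigroup S] : Set (TopologicalSpace S) :=
  {t | @PolishSpace S t ∧ @ContinuousMul S t _}

/-- The number of Polish semigroup topologies on a semigroup. -/
noncomputable def N (S : Type) [Semigroup S] : Cardinal :=
  Cardinal.mk (PolishSemigroupTopologies S)

/-- The Polish semigroup topologies on `Elt P` correspond to the upper sets of `P`. -/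
noncomputable def topologiesEquiv (P : Type) [PartialOrder P] [Finite P] [Nonempty P] :
    UpperSet P ≃ PolishSemigroupTopologies (Elt P) :=
  Equiv.ofBijective
    (fun J => ⟨Elt.top (J : Set P), Elt.top_polish _, Elt.top_continuousMul _ J.upper⟩) (by
      constructor
      · intro J J' h
        have h1 : Elt.top (J : Set P) = Elt.top (J' : Set P) := congrArg Subtype.val h
        exact SetLike.coe_injective
          ((Elt.top_injective _ _ h1).antisymm (Elt.top_injective _ _ h1.symm))
      · rintro ⟨t, ht, ht'⟩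
        exact ⟨⟨@Elt.conv P _ t, @Elt.isUpperSet_conv P _ t ht'⟩,
          Subtype.ext (@Elt.eq_top P _ _ t ht ht' _).symm⟩)

/-- The upper sets of a finite chain. -/
noncomputable def upperSetFin (k : ℕ) : WithTop (Fin k) ≃ UpperSet (Fin k) :=
  Equiv.ofBijective (fun a => a.elim ⊤ UpperSet.Ici) (by
    constructor
    · intro a b h
      cases a with
      | top =>
        cases b with
        | top => rfl
        | coe b =>
          have h1 : (⊤ : UpperSet (Fin k)) = UpperSet.Ici b := h
          have h2 : b ∈ (⊤ : UpperSet (Fin k)) := h1 ▸ UpperSet.mem_Ici_iff.2 le_rfl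
          simp at h2
      | coe a =>
        cases b with
        | top =>
          have h1 : UpperSet.Ici a = (⊤ : UpperSet (Fin k)) := h
          have h2 : a ∈ (⊤ : UpperSet (Fin k)) := h1 ▸ UpperSet.mem_Ici_iff.2 le_rfl
          simp at h2
        | coe b =>
          have h1 : UpperSet.Ici a = UpperSet.Ici b := h
          rw [UpperSet.Ici_injective h1]
    · intro J
      by_cases hJ : J = ⊤
      · exact ⟨⊤, hJ.symm⟩
      · have h1 : ((J : Set (Fin k))).Nonempty := by
          rw [nonempty_iff_ne_empty]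
          intro h
          exact hJ (UpperSet.coe_eq_empty.1 h)
        obtain ⟨a, ha, hmin⟩ := (J : Set (Fin k)).toFinite.exists_minimal h1
        refine ⟨(a : WithTop (Fin k)), ?_⟩
        change UpperSet.Ici a = J
        apply SetLike.coe_injective
        apply subset_antisymm
        · intro b hb
          exact J.upper (UpperSet.mem_Ici_iff.1 hb) ha
        · intro b hb
          rcases le_total a b with h | h
          · exact UpperSet.mem_Ici_iff.2 h
          · exact UpperSet.mem_Ici_iff.2 (hmin hb h))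

lemma N_chain (k : ℕ) [NeZero k] : N (Elt (Fin k)) = (k + 1 : ℕ) := by
  unfold N
  rw [← Cardinal.mk_congr (topologiesEquiv (Fin k)), ← Cardinal.mk_congr (upperSetFin k)]
  have : Cardinal.mk (WithTop (Fin k)) = Cardinal.mk (Option (Fin k)) := rfl
  rw [this, Cardinal.mk_option]
  simp

/-- For every natural number `n` there is a semigroup with exactly `n` Polish semigroup
topologies. -/
theorem exists_N_eq (n : ℕ) : ∃ (S : Type) (_ : Semigroup S), N S = n := by
  match n with
  | 0 =>
    -- a set of cardinality larger than the continuum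
    refine ⟨Set (ℕ → ℕ), { mul := fun a _ => a, mul_assoc := fun _ _ _ => rfl }, ?_⟩
    unfold N
    rw [Nat.cast_zero, Cardinal.mk_eq_zero_iff, isEmpty_coe_sort, eq_empty_iff_forall_notMem]
    rintro t ⟨ht, -⟩
    obtain ⟨f, -, hf⟩ := PolishSpace.exists_nat_nat_continuous_surjective (Set (ℕ → ℕ))
    exact Function.cantor_surjective f hf
  | 1 =>
    refine ⟨PUnit.{1}, inferInstance, ?_⟩
    unfold N
    rw [Nat.cast_one, Cardinal.eq_one_iff_unique]
    refine ⟨⟨?_⟩, ⟨⟨⊥, ?_, ?_⟩⟩⟩
    · rintro ⟨a, ha⟩ ⟨b, hb⟩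
      exact Subtype.ext (Subsingleton.elim a b)
    · let t : TopologicalSpace PUnit.{1} := ⊥
      have h1 : DiscreteTopology PUnit.{1} := ⟨rfl⟩
      infer_instance
    · let t : TopologicalSpace PUnit.{1} := ⊥
      have h1 : DiscreteTopology PUnit.{1} := ⟨rfl⟩
      infer_instance
  | k + 2 => exact ⟨Elt (Fin (k + 1)), inferInstance, N_chain (k + 1)⟩

/-- Every natural number is the number of Polish semigroup topologies of some semigroup; in
particular the list `0, 1, ℵ₀, 2 ^ ℵ₀, 2 ^ (2 ^ ℵ₀)` is not the list of all possible numbers. -/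
theorem result :
    (∀ n : ℕ, ∃ (S : Type) (_ : Semigroup S), N S = n) ∧
    ¬ (∀ κ : Cardinal.{0}, (∃ (S : Type) (_ : Semigroup S), N S = κ) ↔
      κ ∈ ({0, 1, Cardinal.aleph0, 2 ^ Cardinal.aleph0, 2 ^ ((2 : Cardinal) ^ Cardinal.aleph0)} :
        Set Cardinal.{0})) := by
  refine ⟨exists_N_eq, fun h => ?_⟩
  have h1 := (h 2).1 (by exact_mod_cast exists_N_eq 2)
  have h2 : (2 : Cardinal.{0}) < Cardinal.aleph0 := by
    exact_mod_cast Cardinal.natCast_lt_aleph0 (n := 2)
  have h3 : Cardinal.aleph0 < (2 : Cardinal.{0}) ^ Cardinal.aleph0 := Cardinal.cantor _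
  have h4 : (2 : Cardinal.{0}) ^ Cardinal.aleph0 < 2 ^ ((2 : Cardinal) ^ Cardinal.aleph0) :=
    Cardinal.cantor _
  simp only [mem_insert_iff, mem_singleton_iff] at h1
  rcases h1 with h1 | h1 | h1 | h1 | h1
  · exact absurd h1 (by norm_num)
  · exact absurd h1 (by norm_num)
  · exact absurd h1 h2.ne
  · exact absurd h1 (h2.trans h3).ne
  · exact absurd h1 ((h2.trans h3).trans h4).ne

end Pool.Agent.Results.MP_67072b_lc.FiniteNumbers
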